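import Pool.Agent.W622.ETG.Lin

set_option autoImplicit false

namespace Pool.Agent.W461.ELG

open Pool.Agent.W622.ETG Module

section gen

variable {V : Type} [AddCommGroup V] [Module (ZMod 2) V]

theorem card_fam [Finite V] (A : Fam V) : Nat.card A = 2 ^ finrank (ZMod 2) A := by
  let _ := @Submodule.addCommGroup (ZMod 2) (Frm V) _ _ _ A
  have := Module.natCard_eq_pow_finrank (K := ZMod 2) (V := A)
  rwa [Nat.card_zmod] at this

theorem fpos [Finite V] (A : Fam V) {x : Frm V} (hx : x ∈ A) (h0 : x ≠ 0) :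
    0 < finrank (ZMod 2) A := by
  let _ := @Submodule.addCommGroup (ZMod 2) (Frm V) _ _ _ A
  have : Nontrivial A := ⟨⟨⟨x, hx⟩, 0, fun h => h0 (congrArg Subtype.val h)⟩⟩
  exact Module.finrank_pos (R := ZMod 2) (M := A)

theorem frm_c {a b c : Frm V} (h : a + b = a + c) : b = c := by
  refine LinearMap.ext fun x => ?_
  have h1 : (a + b) x = (a + c) x := by rw [h]
  rw [LinearMap.add_apply, LinearMap.add_apply] at h1
  exact add_left_cancel h1

theorem frm_z {a b : Frm V} (h : a + b = 0) : a = b := by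
  refine LinearMap.ext fun x => ?_
  have h1 : (a + b) x = 0 := by rw [h]; rfl
  rw [LinearMap.add_apply] at h1
  exact add_eq_zero'.mp h1

theorem fam_bot [Finite V] (A : Fam V) (h : finrank (ZMod 2) A = 0) : A = ⊥ := by
  rw [eq_bot_iff]
  intro x hx
  rw [Submodule.mem_bot]
  by_contra h0
  exact (fpos A hx h0).ne' h

theorem fam_one [Finite V] (A : Fam V) (h : finrank (ZMod 2) A = 1) :
    ∃ v ∈ A, A = Submodule.span (ZMod 2) {v} := by
  let _ := @Submodule.addCommGroup (ZMod 2) (Frm V) _ _ _ A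
  obtain ⟨⟨v, hv⟩, hv0, hvw⟩ := (finrank_eq_one_iff' (K := ZMod 2) (V := A)).mp h
  refine ⟨v, hv, ?_⟩
  apply le_antisymm
  · intro w hw
    obtain ⟨c, hc⟩ := hvw ⟨w, hw⟩
    rw [Submodule.mem_span_singleton]
    exact ⟨c, congrArg Subtype.val hc⟩
  · rw [Submodule.span_singleton_le_iff_mem]
    exact hv

end gen

section B3E

variable {V : Type} [AddCommGroup V] [Module (ZMod 2) V] [Finite V] {e : V} {A : Fam V}

/-- the nonzero member killing `b` -/
theorem b3e_key (hCB1 : S_CB1) (hC : CB e A)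
    (hall : ∀ X, Block e A X → finrank (ZMod 2) X + 1 = finrank (ZMod 2) V)
    {b : V} (hb : b ≠ 0) {ω : Frm V} (hω : ω ∈ A) (h0 : ω ≠ 0) (hk : ω b = 0) :
    sp ω = ann b ∧ ∀ η ∈ A, η b = 0 → η = 0 ∨ η = ω := by
  obtain ⟨_, h1, _⟩ := hCB1 V e A b hC hb
  have hef := hC.mc.ef
  have hmem : ω ∈ res A (ann b) := (mem_res_ann hef).mpr ⟨hω, hk⟩
  have h2 : 0 < finrank (ZMod 2) (res A (ann b)) := fpos (res A (ann b)) hmem h0
  rw [h1] at h2
  obtain ⟨X, hX, hXb⟩ := Set.nonempty_of_ncard_ne_zero h2.ne'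
  have hXe : X = ann b := by
    refine Submodule.eq_of_le_of_finrank_eq hXb ?_
    have h3 := hall X hX
    have h4 := finrank_ann hb
    omega
  rcases hX with hM | ⟨ω', hω'⟩
  · exact absurd hM.1 (hC.nc X)
  obtain ⟨⟨hA', h0', hpr⟩, hsp, -⟩ := hω'
  have key : ∀ η ∈ A, η b = 0 → η = 0 ∨ η = ω' := by
    intro η hη hηb
    refine hpr η hη ?_
    rw [← hsp, hXe]
    exact ((hef η hη).ker_iff_ann).mp hηb
  have hωω' : ω = ω' := (key ω hω hk).resolve_left h0
  subst hωω'
  exact ⟨by rw [← hsp, hXe], key⟩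

theorem b3e_ker (hCB1 : S_CB1) (hC : CB e A)
    (hall : ∀ X, Block e A X → finrank (ZMod 2) X + 1 = finrank (ZMod 2) V)
    {b b' : V} (hb : b ≠ 0) (hb' : b' ≠ 0) {ω : Frm V} (hω : ω ∈ A) (h0 : ω ≠ 0)
    (hk : ω b = 0) (hk' : ω b' = 0) : b = b' := by
  have h1 := (b3e_key hCB1 hC hall hb hω h0 hk).1
  have h2 := (b3e_key hCB1 hC hall hb' hω h0 hk').1
  have h3 : (ann b : DSub V) = ann b' := h1.symm.trans h2
  by_contra hne
  have h4 : b + b' ≠ 0 := fun h => hne (add_eq_zero'.mp h)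
  obtain ⟨f, hf⟩ := exists_ne_one h4
  rw [map_add] at hf
  rcases z01 (f b) with hfb | hfb
  · have h5 : f ∈ (ann b : DSub V) := hfb
    rw [h3] at h5
    have h6 : f b' = 0 := h5
    rw [hfb, h6] at hf
    exact absurd hf (by decide)
  · rcases z01 (f b') with h6 | h6
    · have h5 : f ∈ (ann b' : DSub V) := h6
      rw [← h3] at h5
      have h7 : f b = 0 := h5
      rw [hfb] at h7
      exact absurd h7 (by decide)
    · rw [hfb, h6] at hf
      exact absurd hf (by decide)

theorem b3e_gamma (hCB1 : S_CB1) (hC : CB e A)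
    (hall : ∀ X, Block e A X → finrank (ZMod 2) X + 1 = finrank (ZMod 2) V)
    {f : Dl V} (hf : f ≠ 0) {a c d g : V} (hac : a ≠ c) (had : a ≠ d) (hag : a ≠ g)
    (hcd : c ≠ d) (hcg : c ≠ g) (hdg : d ≠ g)
    (ha : ∃ ω ∈ A, ω a = f) (hc : ∃ ω ∈ A, ω c = f) (hd : ∃ ω ∈ A, ω d = f)
    (hg : ∃ ω ∈ A, ω g = f) : False := by
  have hL : Linked A := by
    have := hC.mc.her ⊤
    rwa [res_top] at this
  have hlink : ∀ x y : V, (∃ ω ∈ A, ω x = f) → (∃ ω ∈ A, ω y = f) →
      ∃ ζ ∈ A, ζ x = f ∧ ζ y = f := by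
    rintro x y ⟨ω, hω, h1⟩ ⟨η, hη, h2⟩
    obtain ⟨ζ, hζ, h3, h4⟩ := hL ω hω η hη x y (h1.trans h2.symm)
    exact ⟨ζ, hζ, h3.trans h1, h4.trans h1⟩
  have ha0 : a ≠ 0 := by
    rintro rfl
    obtain ⟨ω, -, h⟩ := ha
    rw [map_zero] at h
    exact hf h.symm
  obtain ⟨z1, hz1, h11, h12⟩ := hlink a c ha hc
  obtain ⟨z2, hz2, h21, h22⟩ := hlink a d ha hd
  obtain ⟨z3, hz3, h31, h32⟩ := hlink a g ha hg
  have hne : ∀ {x y : V}, x ≠ y → x + y ≠ 0 := fun h h' => h (add_eq_zero'.mp h')
  have nz : ∀ {z : Frm V} {x : V}, z x = f → z ≠ 0 := by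
    rintro z x h rfl
    exact hf (by rw [← h]; rfl)
  have kz : ∀ {z : Frm V} {x y : V}, z x = f → z y = f → z (x + y) = 0 := by
    intro z x y h1 h2
    rw [map_add, h1, h2, vadd]
  -- the three members are different
  have dif : ∀ {z z' : Frm V} {y y' : V}, z ∈ A → z a = f → z y = f → z' a = f → z' y' = f →
      a ≠ y → a ≠ y' → y ≠ y' → z ≠ z' := by
    rintro z z' y y' hz h1 h2 h3 h4 hy hy' hyy rfl
    have h5 := b3e_ker hCB1 hC hall (hne hy) (hne hy') hz (nz h1) (kz h1 h2) (kz h1 h4)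
    exact hyy (add_left_cancel h5)
  have e1 : z1 + z2 ≠ 0 := fun h => dif hz1 h11 h12 h21 h22 hac had hcd (frm_z h)
  have e2 : z1 + z3 ≠ 0 := fun h => dif hz1 h11 h12 h31 h32 hac hag hcg (frm_z h)
  have k1 : (z1 + z2) a = 0 := by rw [LinearMap.add_apply, h11, h21, vadd]
  have k2 : (z1 + z3) a = 0 := by rw [LinearMap.add_apply, h11, h31, vadd]
  have h5 := (b3e_key hCB1 hC hall ha0 (A.add_mem hz1 hz2) e1 k1).2 _ (A.add_mem hz1 hz3) k2
  have h6 : z3 = z2 := frm_c (h5.resolve_left e2)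
  exact dif hz2 h21 h22 h31 h32 had hag hdg h6.symm

theorem t_B3E (hCB1 : S_CB1) (hTWO : S_TWO) : S_B3E := by
  classical
  intro V _ _ _ e A hC hall
  have hef := hC.mc.ef
  have hL : Linked A := by
    have := hC.mc.her ⊤
    rwa [res_top] at this
  have : Fintype V := Fintype.ofFinite V
  have : Fintype (Dl V) := Fintype.ofFinite _
  have : Fintype (Frm V) := Fintype.ofFinite _
  have : Fintype A := Fintype.ofFinite _
  have hn4 := hC.four
  have hcV : Fintype.card V = 2 ^ finrank (ZMod 2) V := by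
    rw [Module.card_eq_pow_finrank (K := ZMod 2) (V := V), ZMod.card]
  have hcD : Fintype.card (Dl V) = 2 ^ finrank (ZMod 2) V := by
    rw [Module.card_eq_pow_finrank (K := ZMod 2) (V := Dl V), ZMod.card, finrank_Dl]
  have hcA : Fintype.card A = 2 ^ finrank (ZMod 2) A := by
    rw [← Nat.card_eq_fintype_card]
    exact card_fam A
  have hN : 16 ≤ 2 ^ finrank (ZMod 2) V := by
    calc 16 = 2 ^ 4 := by norm_num
      _ ≤ _ := Nat.pow_le_pow_right (by norm_num) hn4
  -- small dimensions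
  have hD0 : finrank (ZMod 2) A ≠ 0 := by
    intro h
    have h1 : A = ⊥ := fam_bot A h
    exact hC.mc.nel (h1 ▸ El.zero)
  have hD1 : finrank (ZMod 2) A ≠ 1 := by
    intro h
    obtain ⟨v, hv, h1⟩ := fam_one A h
    apply hC.mc.nel
    rw [h1]
    exact El.loc v (hef v hv)
  have hD2 : finrank (ZMod 2) A ≠ 2 := by
    intro h
    refine hTWO V e A hef hL hn4 h ?_
    intro ω hω h0
    by_cases hk : ∃ b, b ≠ 0 ∧ ω b = 0
    · obtain ⟨b, hb, hk⟩ := hk
      rw [(b3e_key hCB1 hC hall hb hω h0 hk).1, finrank_ann hb]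
    · push Not at hk
      have h1 : LinearMap.ker ω = ⊥ := by
        rw [LinearMap.ker_eq_bot']
        intro b hb
        by_contra hb0
        exact hk b hb0 hb
      have h2 := finrank_sp_add_ker ω
      rw [h1, finrank_bot] at h2
      omega
  -- double counting
  set S : Finset V := Finset.univ.filter (· ≠ 0) with hS
  set T : Finset (Dl V) := Finset.univ.filter (· ≠ 0) with hT
  have hSc : S.card + 1 = 2 ^ finrank (ZMod 2) V := by
    rw [hS, Finset.filter_ne', Finset.card_erase_of_mem (Finset.mem_univ _), Finset.card_univ, hcV]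
    omega
  have hTc : T.card + 1 = 2 ^ finrank (ZMod 2) V := by
    rw [hT, Finset.filter_ne', Finset.card_erase_of_mem (Finset.mem_univ _), Finset.card_univ, hcD]
    omega
  let r : V → Dl V → Prop := fun a f => ∃ ω ∈ A, ω a = f
  have hdc := Finset.sum_card_bipartiteAbove_eq_sum_card_bipartiteBelow (s := S) (t := T) r
  have hR : ∑ f ∈ T, (S.bipartiteBelow r f).card ≤ T.card * 3 := by
    refine Finset.sum_le_card_nsmul T _ 3 ?_
    intro f hf
    have hf0 : f ≠ 0 := (Finset.mem_filter.mp hf).2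
    by_contra hlt
    push Not at hlt
    have hpos : 0 < (S.bipartiteBelow r f).card := by omega
    obtain ⟨a, ha⟩ := Finset.card_pos.mp hpos
    have h3 : 2 < ((S.bipartiteBelow r f).erase a).card := by
      rw [Finset.card_erase_of_mem ha]; omega
    obtain ⟨c, hc, d, hd, g, hg, hcd, hcg, hdg⟩ := Finset.two_lt_card.mp h3
    rw [Finset.mem_erase] at hc hd hg
    have mem : ∀ {x}, x ∈ S.bipartiteBelow r f → ∃ ω ∈ A, ω x = f := by
      intro x hx
      exact (Finset.mem_filter.mp hx).2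
    exact b3e_gamma hCB1 hC hall hf0 hc.1.symm hd.1.symm hg.1.symm hcd hcg hdg
      (mem ha) (mem hc.2) (mem hd.2) (mem hg.2)
  -- left side
  have himg : ∀ a : V, (Finset.univ.image (fun ω : A => ω.1 a)).card ≤
      (T.bipartiteAbove r a).card + 1 := by
    intro a
    have hsub : Finset.univ.image (fun ω : A => ω.1 a) ⊆ insert 0 (T.bipartiteAbove r a) := by
      intro f hf
      rw [Finset.mem_image] at hf
      obtain ⟨ω, -, rfl⟩ := hf
      by_cases h0 : ω.1 a = 0
      · rw [h0]; exact Finset.mem_insert_self _ _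
      · refine Finset.mem_insert_of_mem ?_
        refine Finset.mem_filter.mpr ⟨Finset.mem_filter.mpr ⟨Finset.mem_univ _, h0⟩, ?_⟩
        exact ⟨ω.1, ω.2, rfl⟩
    exact (Finset.card_le_card hsub).trans (Finset.card_insert_le _ _)
  have hhalf : ∀ a : V, a ≠ 0 → Fintype.card A ≤ 2 * ((T.bipartiteAbove r a).card + 1) := by
    intro a ha
    refine le_trans ?_ (Nat.mul_le_mul_left 2 (himg a))
    rw [← Finset.card_univ]
    refine Finset.card_le_mul_card_image _ 2 ?_
    intro f _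
    by_contra hlt
    push Not at hlt
    obtain ⟨x, hx, y, hy, z, hz, hxy, hxz, hyz⟩ := Finset.two_lt_card.mp hlt
    have hx' : x.1 a = f := (Finset.mem_filter.mp hx).2
    have hy' : y.1 a = f := (Finset.mem_filter.mp hy).2
    have hz' : z.1 a = f := (Finset.mem_filter.mp hz).2
    have e1 : x.1 + y.1 ≠ 0 := fun h => hxy (Subtype.ext (frm_z h))
    have e2 : x.1 + z.1 ≠ 0 := fun h => hxz (Subtype.ext (frm_z h))
    have k1 : (x.1 + y.1) a = 0 := by rw [LinearMap.add_apply, hx', hy', vadd]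
    have k2 : (x.1 + z.1) a = 0 := by rw [LinearMap.add_apply, hx', hz', vadd]
    have h5 := (b3e_key hCB1 hC hall ha (A.add_mem x.2 y.2) e1 k1).2 _ (A.add_mem x.2 z.2) k2
    exact hyz (Subtype.ext (frm_c (h5.resolve_left e2)).symm)
  have hfull : ∀ a : V, (∀ ω ∈ A, ω a = 0 → ω = 0) →
      Fintype.card A ≤ (T.bipartiteAbove r a).card + 1 := by
    intro a ha
    refine le_trans ?_ (himg a)
    rw [Finset.card_image_of_injective, Finset.card_univ]
    intro x y hxy
    have h1 : (x.1 + y.1) a = 0 := by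
      rw [LinearMap.add_apply]
      have : x.1 a = y.1 a := hxy
      rw [this, vadd]
    exact Subtype.ext (frm_z (ha _ (A.add_mem x.2 y.2) h1))
  have hS0 : ∀ a ∈ S, a ≠ 0 := fun a ha => (Finset.mem_filter.mp ha).2
  by_cases hD4 : 4 ≤ finrank (ZMod 2) A
  · have h16 : 16 ≤ Fintype.card A := by
      rw [hcA]
      calc 16 = 2 ^ 4 := by norm_num
        _ ≤ _ := Nat.pow_le_pow_right (by norm_num) hD4
    have h7 : S.card * 7 ≤ ∑ a ∈ S, (T.bipartiteAbove r a).card := by
      refine Finset.card_nsmul_le_sum S _ 7 ?_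
      intro a ha
      have := hhalf a (hS0 a ha)
      omega
    omega
  · have hD3 : finrank (ZMod 2) A = 3 := by omega
    have h8 : Fintype.card A = 8 := by rw [hcA, hD3]; norm_num
    set B : Finset V := S.filter (fun a => ∃ ω ∈ A, ω ≠ 0 ∧ ω a = 0) with hB
    have hBc : B.card ≤ 7 := by
      have hex : ∀ a : V, ∃ ω : A, a ∈ B → ω.1 ≠ 0 ∧ ω.1 a = 0 := by
        intro a
        by_cases ha : a ∈ B
        · obtain ⟨ω, h1, h2, h3⟩ := (Finset.mem_filter.mp ha).2
          exact ⟨⟨ω, h1⟩, fun _ => ⟨h2, h3⟩⟩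
        · exact ⟨0, fun h => absurd h ha⟩
      choose F hF using hex
      have h1 : B.card ≤ ((Finset.univ : Finset A).erase 0).card := by
        refine Finset.card_le_card_of_injOn F ?_ ?_
        · intro a ha
          rw [Finset.mem_coe, Finset.mem_erase]
          exact ⟨fun h => (hF a ha).1 (by rw [h]; rfl), Finset.mem_univ _⟩
        · intro a ha a' ha' haa
          have h2 := hF a ha
          have h3 := hF a' ha'
          rw [← haa] at h3
          exact b3e_ker hCB1 hC hall (hS0 a (Finset.mem_filter.mp ha).1)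
            (hS0 a' (Finset.mem_filter.mp ha').1) (F a).2 h2.1 h2.2 h3.2
      rw [Finset.card_erase_of_mem (Finset.mem_univ _), Finset.card_univ, h8] at h1
      exact h1
    have h7 : S.card * 7 ≤ ∑ a ∈ S, ((T.bipartiteAbove r a).card + if a ∈ B then 4 else 0) := by
      refine Finset.card_nsmul_le_sum S _ 7 ?_
      intro a ha
      by_cases haB : a ∈ B
      · rw [if_pos haB]
        have := hhalf a (hS0 a ha)
        omega
      · rw [if_neg haB]
        have := hfull a (fun ω hω h0 => by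
          by_contra hne
          exact haB (Finset.mem_filter.mpr ⟨ha, ω, hω, hne, h0⟩))
        omega
    rw [Finset.sum_add_distrib] at h7
    have h9 : ∑ a ∈ S, (if a ∈ B then 4 else 0) = B.card * 4 := by
      rw [← Finset.sum_filter]
      have : S.filter (fun a => a ∈ B) = B := by
        ext a
        rw [Finset.mem_filter]
        exact ⟨fun h => h.2, fun h => ⟨(Finset.mem_filter.mp h).1, h⟩⟩
      rw [this, Finset.sum_const, smul_eq_mul]
    rw [h9] at h7
    omega

end B3E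

end Pool.Agent.W461.ELG
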